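import Pool.Agent.helper55.FPZ.Spec

set_option autoImplicit false

namespace Pool.Agent.FPZ

open Matrix Polynomial Pool.Agent.PL Pool.Agent.X4

theorem TM_sumApp {R : Type} [AddCommMonoid R] (N p q : ℕ) (f : (Fin (p + q) → Fin N) → R) :
    ∑ K, f K = ∑ I : Fin p → Fin N, ∑ J : Fin q → Fin N, f (Fin.append I J) := by
  rw [← Fintype.sum_prod_type']
  exact (Fintype.sum_equiv (Fin.appendEquiv p q) (fun x => f (Fin.append x.1 x.2)) f
    (fun x => rfl)).symm

theorem TM_append {R : Type} [CommRing R] (N : ℕ) (u : Matrix (Fin N) (Fin N) R) (p q : ℕ)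
    (I J : Fin p → Fin N) (I' J' : Fin q → Fin N) :
    tp u (p + q) (Fin.append I I') (Fin.append J J') = tp u p I J * tp u q I' J' := by
  simp only [tp, Fin.prod_univ_add, Fin.append_left, Fin.append_right]

theorem TM_tmul {R : Type} [CommRing R] (N : ℕ) (u : Matrix (Fin N) (Fin N) R) (m n : ℕ)
    (s : Tn N m R) (t : Tn N n R) :
    tp u (m + n) *ᵥ tmul s t = tmul (tp u m *ᵥ s) (tp u n *ᵥ t) := by
  ext I
  have hI : I = Fin.append (fun i => I (Fin.castAdd n i)) (fun j => I (Fin.natAdd m j)) := by
    exact (Fin.append_castAdd_natAdd).symm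
  simp only [Matrix.mulVec, dotProduct, tmul]
  rw [TM_sumApp, Finset.sum_mul_sum]
  refine Finset.sum_congr rfl (fun J _ => Finset.sum_congr rfl (fun K _ => ?_))
  simp only [Fin.append_left, Fin.append_right]
  have h1 : tp u (m + n) I (Fin.append J K) =
      tp u m (fun i => I (Fin.castAdd n i)) J * tp u n (fun j => I (Fin.natAdd m j)) K := by
    conv_lhs => rw [hI]
    exact TM_append N u m n _ _ _ _
  rw [h1]
  ring

theorem TM_der {R : Type} [CommRing R] (N : ℕ) (u : Matrix (Fin N) (Fin N) R) (m n : ℕ)
    (s : Tn N m R) (t : Tn N n R) :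
    der u (m + n) (tmul s t) = tmul (der u m s) t + tmul s (der u n t) := by
  ext I
  have h1 : ∀ (k : Fin m) (j : Fin N), (fun i => Function.update I (Fin.castAdd n k) j
      (Fin.castAdd n i)) = Function.update (fun i => I (Fin.castAdd n i)) k j := by
    intro k j
    ext i
    by_cases h : i = k
    · subst h
      simp
    · rw [Function.update_of_ne h, Function.update_of_ne]
      exact fun h' => h (Fin.castAdd_injective m n h')
  have h2 : ∀ (k : Fin m) (j : Fin N), (fun i => Function.update I (Fin.castAdd n k) j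
      (Fin.natAdd m i)) = fun i => I (Fin.natAdd m i) := by
    intro k j
    ext i
    rw [Function.update_of_ne]
    intro h
    have := congrArg Fin.val h
    simp only [Fin.val_natAdd, Fin.val_castAdd] at this
    omega
  have h3 : ∀ (k : Fin n) (j : Fin N), (fun i => Function.update I (Fin.natAdd m k) j
      (Fin.natAdd m i)) = Function.update (fun i => I (Fin.natAdd m i)) k j := by
    intro k j
    ext i
    by_cases h : i = k
    · subst h
      simp
    · rw [Function.update_of_ne h, Function.update_of_ne]
      intro h'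
      have := congrArg Fin.val h'
      simp only [Fin.val_natAdd] at this
      exact h (Fin.ext (by omega))
  have h4 : ∀ (k : Fin n) (j : Fin N), (fun i => Function.update I (Fin.natAdd m k) j
      (Fin.castAdd n i)) = fun i => I (Fin.castAdd n i) := by
    intro k j
    ext i
    rw [Function.update_of_ne]
    intro h
    have := congrArg Fin.val h
    simp only [Fin.val_natAdd, Fin.val_castAdd] at this
    omega
  simp only [der, tmul, Pi.add_apply, Fin.sum_univ_add, h1, h2, h3, h4]
  rw [Finset.sum_mul, Finset.mul_sum]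
  refine congrArg₂ (· + ·) (Finset.sum_congr rfl fun k _ => ?_)
    (Finset.sum_congr rfl fun k _ => ?_)
  · rw [Finset.sum_mul]
    exact Finset.sum_congr rfl fun j _ => by ring
  · rw [Finset.mul_sum]
    exact Finset.sum_congr rfl fun j _ => by ring

theorem TM : TM_stmt := by
  intro F _ N m n s t u
  refine ⟨TM_tmul N u m n s t, TM_der N u m n s t, fun hs ht h => ?_⟩
  obtain ⟨I, hI⟩ := Function.ne_iff.1 hs
  obtain ⟨J, hJ⟩ := Function.ne_iff.1 ht
  have h1 := congrFun h (Fin.append I J)
  simp only [tmul, Fin.append_left, Fin.append_right, Pi.zero_apply] at h1 hI hJ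
  rcases mul_eq_zero.1 h1 with h2 | h2
  · exact hI h2
  · exact hJ h2

end Pool.Agent.FPZ
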